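import Pool.Agent.ZSA.Main

namespace Pool.Agent.Results.MP_8ab2db_co.AllLarge

/-- For all sufficiently large `m` (prime or not) the four-colour Ramsey number of the family of
all trees with `m` edges equals the zero-sum Ramsey number for two disjoint copies of `Z_m`. -/
theorem result : ∃ m0, ∀ m, m0 ≤ m →
    (∀ n, ZST.HasMono m 4 n ↔ ZST.HasZero m n) ∧
    ∃ R, IsLeast {n | ZST.HasMono m 4 n} R ∧ IsLeast {n | ZST.HasZero m n} R :=
  ZSA.main

end Pool.Agent.Results.MP_8ab2db_co.AllLarge
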