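import Pool.Agent.ZST.Main

namespace Pool.Agent.Results.MP_8ab2db_co.LargePrimes

/-- For every prime `p ≥ 10 ^ 13` the four-colour Ramsey number of the family of all trees with
`p` edges equals the zero-sum Ramsey number for two disjoint copies of `Z_p`. -/
theorem result (p : ℕ) (hprime : p.Prime) (hp : 10 ^ 13 ≤ p) :
    (∀ n, ZST.HasMono p 4 n ↔ ZST.HasZero p n) ∧
    ∃ R, IsLeast {n | ZST.HasMono p 4 n} R ∧ IsLeast {n | ZST.HasZero p n} R :=
  ZST.main p hprime hp

end Pool.Agent.Results.MP_8ab2db_co.LargePrimes
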